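import Pool.Agent.Q147.MM.Stm
import Pool.Agent.Cov.PNT

/-!
# Project MM (helper147): jobs CHEB and D1
-/

set_option autoImplicit false

namespace Pool.Agent.Q210.MM

open Finset Filter Topology Pool.Agent.Q147.MM

theorem t_CHEB : S_CHEB := by
  have h0 : Tendsto (fun N : ℕ => (Nat.primeCounting (N + 2) : ℝ) * Real.log ((N + 2 : ℕ) : ℝ) /
      ((N + 2 : ℕ) : ℝ)) atTop (𝓝 1) := by
    have h1 := Pool.Agent.Cov.PNT.pi_tendsto.comp
      (tendsto_natCast_atTop_atTop (R := ℝ))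
    have h2 := h1.comp (tendsto_add_atTop_nat 2)
    refine h2.congr fun N => ?_
    simp only [Function.comp_apply, Nat.floor_natCast]
  have hpos : ∀ N : ℕ, 0 < (Nat.primeCounting (N + 2) : ℝ) * Real.log ((N + 2 : ℕ) : ℝ) /
      ((N + 2 : ℕ) : ℝ) := by
    intro N
    have h1 : 0 < Nat.primeCounting (N + 2) := by
      have h2 : Nat.primeCounting 2 ≤ Nat.primeCounting (N + 2) :=
        Nat.monotone_primeCounting (by omega)
      have h3 : Nat.primeCounting 2 = 1 := by decide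
      omega
    have h2 : 0 < Real.log ((N + 2 : ℕ) : ℝ) := by
      apply Real.log_pos
      push_cast
      have : (0 : ℝ) ≤ N := Nat.cast_nonneg N
      linarith
    have h3 : (0 : ℝ) < Nat.primeCounting (N + 2) := by exact_mod_cast h1
    have h4 : (0 : ℝ) < ((N + 2 : ℕ) : ℝ) := by positivity
    positivity
  obtain ⟨C, hC⟩ := h0.bddAbove_range
  obtain ⟨D, hD⟩ := (h0.inv₀ one_ne_zero).bddAbove_range
  have hC' : ∀ N : ℕ, (Nat.primeCounting (N + 2) : ℝ) * Real.log ((N + 2 : ℕ) : ℝ) /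
      ((N + 2 : ℕ) : ℝ) ≤ C := fun N => hC ⟨N, rfl⟩
  have hD' : ∀ N : ℕ, ((Nat.primeCounting (N + 2) : ℝ) * Real.log ((N + 2 : ℕ) : ℝ) /
      ((N + 2 : ℕ) : ℝ))⁻¹ ≤ D := fun N => hD ⟨N, rfl⟩
  have hCpos : 0 < C := (hpos 0).trans_le (hC' 0)
  have hDpos : 0 < D := (inv_pos.2 (hpos 0)).trans_le (hD' 0)
  refine ⟨D⁻¹, C, inv_pos.2 hDpos, hCpos, fun M hM => ?_⟩
  obtain ⟨N, rfl⟩ : ∃ N, M = N + 2 := ⟨M - 2, by omega⟩
  have h2 : 0 < Real.log ((N + 2 : ℕ) : ℝ) := by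
    apply Real.log_pos
    push_cast
    have : (0 : ℝ) ≤ N := Nat.cast_nonneg N
    linarith
  have h4 : (0 : ℝ) < ((N + 2 : ℕ) : ℝ) := by positivity
  constructor
  · have h5 := hD' N
    have h6 : D⁻¹ ≤ (Nat.primeCounting (N + 2) : ℝ) * Real.log ((N + 2 : ℕ) : ℝ) /
      ((N + 2 : ℕ) : ℝ) := by
      rw [inv_le_comm₀ hDpos (hpos N)]
      exact h5
    rw [le_div_iff₀ h4] at h6
    rw [← mul_div_assoc, div_le_iff₀ h2]
    exact h6
  · have h5 := hC' N
    rw [div_le_iff₀ h4] at h5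
    rw [← mul_div_assoc, le_div_iff₀ h2]
    exact h5

theorem T_mono_x (k : ℕ) {x y : ℕ} (h : x ≤ y) : T k x ≤ T k y := by
  unfold T
  refine Finset.sum_le_sum_of_subset_of_nonneg ?_ fun n _ _ => by positivity
  intro a ha
  rw [mem_upto] at ha ⊢
  exact ⟨⟨ha.1.1, ha.1.2.trans h⟩, ha.2⟩

theorem T_mono_k (k x : ℕ) : T k x ≤ T (k + 1) x := by
  unfold T
  refine Finset.sum_le_sum_of_subset_of_nonneg ?_ fun n _ _ => by positivity
  intro a ha
  rw [mem_upto] at ha ⊢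
  exact ⟨ha.1, ha.2.1, ha.2.2.trans (Nat.le_succ k)⟩

theorem T_zero {x : ℕ} (hx : 1 ≤ x) : T 0 x = 1 := by
  have h1 : upto (Sk 0) x = {1} := by
    ext a
    rw [mem_upto, Finset.mem_singleton]
    constructor
    · rintro ⟨⟨h1, h2⟩, h3, h4⟩
      have h5 := ArithmeticFunction.cardFactors_eq_zero_iff_eq_zero_or_one.1 (Nat.le_zero.1 h4)
      rcases h5 with h | h
      · exact absurd h h3
      · exact h
    · rintro rfl
      exact ⟨⟨le_refl 1, hx⟩, one_ne_zero, by simp⟩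
  unfold T
  rw [h1]
  simp

theorem T_nonneg (k x : ℕ) : 0 ≤ T k x := by
  unfold T
  exact Finset.sum_nonneg fun n _ => by positivity

theorem t_D1 : S_D1 := by
  intro hD0 k
  induction k with
  | zero =>
    intro M
    refine ⟨1, one_pos, fun x hx => ?_⟩
    rw [T_zero (Nat.one_le_pow _ _ hx), T_zero hx, one_mul]
  | succ k ih =>
    intro M
    obtain ⟨C, hC, h1⟩ := hD0 k M
    obtain ⟨C', hC', h2⟩ := ih M
    refine ⟨1 + C * C', by positivity, fun x hx => ?_⟩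
    have h3 := h1 x (x ^ M) hx le_rfl
    have h4 := h2 x hx
    have h5 := T_mono_k k x
    have h6 : T (k + 1) (x ^ M) ≤ T (k + 1) x +
        ∑ n ∈ (upto (Sk (k + 1)) (x ^ M)).filter (fun n => x < n), (1 : ℝ) / n := by
      unfold T
      rw [← Finset.sum_filter_add_sum_filter_not (upto (Sk (k + 1)) (x ^ M)) (fun n => x < n),
        add_comm]
      refine add_le_add ?_ le_rfl
      refine Finset.sum_le_sum_of_subset_of_nonneg ?_ fun n _ _ => by positivity
      intro a ha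
      rw [Finset.mem_filter, mem_upto] at ha
      rw [mem_upto]
      exact ⟨⟨ha.1.1.1, not_lt.1 ha.2⟩, ha.1.2⟩
    have h7 : C * T k (x ^ M) ≤ C * (C' * T (k + 1) x) :=
      mul_le_mul_of_nonneg_left (h4.trans (mul_le_mul_of_nonneg_left h5 hC'.le)) hC.le
    linarith

end Pool.Agent.Q210.MM
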